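import Mathlib

/-!
A plane sextic `S` such that the double plane `w ^ 2 = S` is a K3 surface of Picard number 20 and
discriminant -163 with all of its Picard group rational, and the pencil of genus two curves cut
out by the lines through the point `(1 : -4 : 13)`.
-/

namespace Pool.Agent.H19F

open Polynomial

section
variable {R : Type*} [CommRing R]

/-- The sextic form. -/
def S (x y z : R) : R :=
  1122916 * x ^ 6 + 2923188 * x ^ 5 * y + 282908 * x ^ 5 * z + 2092837 * x ^ 4 * y ^ 2 + 35582 * x ^ 4 * y * z - 997523 * x ^ 4 * z ^ 2 + 180258 * x ^ 3 * y ^ 3 - 576810 * x ^ 3 * y ^ 2 * z - 1783070 * x ^ 3 * y * z ^ 2 - 137026 * x ^ 3 * z ^ 3 - 129383 * x ^ 2 * y ^ 4 + 63994 * x ^ 2 * y ^ 3 * z + 5130 * x ^ 2 * y ^ 2 * z ^ 2 + 174674 * x ^ 2 * y * z ^ 3 + 187229 * x ^ 2 * z ^ 4 - 15240 * x * y ^ 5 + 36526 * x * y ^ 4 * z - 25890 * x * y ^ 3 * z ^ 2 - 47198 * x * y ^ 2 * z ^ 3 + 132318 * x * y * z ^ 4 + 14740 * x * z ^ 5 + 3600 * y ^ 6 + 6600 * y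 ^ 5 * z - 14615 * y ^ 4 * z ^ 2 - 17370 * y ^ 3 * z ^ 3 + 20509 * y ^ 2 * z ^ 4 + 2940 * y * z ^ 5 + 100 * z ^ 6

theorem S_hom (k x y z : R) : S (k * x) (k * y) (k * z) = k ^ 6 * S x y z := by
  unfold S; ring

theorem S_map {T : Type*} [CommRing T] (g : R →+* T) (x y z : R) :
    g (S x y z) = S (g x) (g y) (g z) := by
  simp only [S, map_add, map_sub, map_neg, map_mul, map_pow, map_ofNat]

/-- The restriction of `S` to the line through `(1 : -4 : 13)` and `(s : t : 0)`. -/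
noncomputable def fp (s t : R) : R[X] :=
  S (1 + C s * X) (-4 + C t * X) 13

/-- Coefficient 0 of `fp s t`. -/
def c0 (s t : R) : R := 708624400

/-- Coefficient 1 of `fp s t`. -/
def c1 (s t : R) : R := -1668488360 * s - 244797520 * t

/-- Coefficient 2 of `fp s t`. -/
def c2 (s t : R) : R := 5173324145 * s ^ 2 + 4408756484 * s * t + 740541780 * t ^ 2

/-- Coefficient 3 of `fp s t`. -/
def c3 (s t : R) : R := 167320010 * s ^ 3 - 316666196 * s ^ 2 * t - 59538292 * s * t ^ 2 - 851840 * t ^ 3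

/-- Coefficient 4 of `fp s t`. -/
def c4 (s t : R) : R := -160177259 * s ^ 4 - 268586846 * s ^ 3 * t - 37964718 * s ^ 2 * t ^ 2 - 8066344 * s * t ^ 3 - 2671680 * t ^ 4

/-- Coefficient 5 of `fp s t`. -/
def c5 (s t : R) : R := -1277452 * s ^ 5 - 1664190 * s ^ 4 * t - 1290278 * s ^ 3 * t ^ 2 + 3442824 * s ^ 2 * t ^ 3 + 520872 * s * t ^ 4 - 15840 * t ^ 5

/-- Coefficient 6 of `fp s t`. -/
def c6 (s t : R) : R := 1122916 * s ^ 6 + 2923188 * s ^ 5 * t + 2092837 * s ^ 4 * t ^ 2 + 180258 * s ^ 3 * t ^ 3 - 129383 * s ^ 2 * t ^ 4 - 15240 * s * t ^ 5 + 3600 * t ^ 6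

theorem fp_eq (s t : R) : fp s t =
    C (c6 s t) * X ^ 6 + C (c5 s t) * X ^ 5 + C (c4 s t) * X ^ 4 + C (c3 s t) * X ^ 3 +
      C (c2 s t) * X ^ 2 + C (c1 s t) * X + C (c0 s t) := by
  simp only [fp, S, c0, c1, c2, c3, c4, c5, c6, map_add, map_sub, map_neg, map_mul, map_pow,
    map_ofNat]
  ring

theorem fp_eval (s t x : R) : (fp s t).eval x = S (1 + s * x) (-4 + t * x) 13 := by
  simp only [fp, S, eval_add, eval_sub, eval_neg, eval_mul, eval_pow, eval_ofNat, eval_one, eval_C,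
    eval_X]

theorem c0_map {T : Type*} [CommRing T] (g : R →+* T) (s t : R) :
    g (c0 s t) = c0 (g s) (g t) := by
  simp only [c0, map_add, map_sub, map_neg, map_mul, map_pow, map_ofNat]

theorem c1_map {T : Type*} [CommRing T] (g : R →+* T) (s t : R) :
    g (c1 s t) = c1 (g s) (g t) := by
  simp only [c1, map_add, map_sub, map_neg, map_mul, map_pow, map_ofNat]

theorem c2_map {T : Type*} [CommRing T] (g : R →+* T) (s t : R) :
    g (c2 s t) = c2 (g s) (g t) := by
  simp only [c2, map_add, map_sub, map_neg, map_mul, map_pow, map_ofNat]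

theorem c3_map {T : Type*} [CommRing T] (g : R →+* T) (s t : R) :
    g (c3 s t) = c3 (g s) (g t) := by
  simp only [c3, map_add, map_sub, map_neg, map_mul, map_pow, map_ofNat]

theorem c4_map {T : Type*} [CommRing T] (g : R →+* T) (s t : R) :
    g (c4 s t) = c4 (g s) (g t) := by
  simp only [c4, map_add, map_sub, map_neg, map_mul, map_pow, map_ofNat]

theorem c5_map {T : Type*} [CommRing T] (g : R →+* T) (s t : R) :
    g (c5 s t) = c5 (g s) (g t) := by
  simp only [c5, map_add, map_sub, map_neg, map_mul, map_pow, map_ofNat]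

theorem c6_map {T : Type*} [CommRing T] (g : R →+* T) (s t : R) :
    g (c6 s t) = c6 (g s) (g t) := by
  simp only [c6, map_add, map_sub, map_neg, map_mul, map_pow, map_ofNat]

end

end Pool.Agent.H19F
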