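import Pool.Agent.H19F.Sec

/-!
Counting points from a list of triples, with distinctness read off modulo a prime.
-/

namespace Pool.Agent.H19F

open Polynomial

theorem count_points (f : ℚ[X]) (l : List (ℚ × ℚ)) (hnd : (l.map Prod.fst).Nodup)
    (hne : ∀ e ∈ l, e.2 ≠ 0) (hpt : ∀ e ∈ l, e.2 ^ 2 = f.eval e.1) :
    ((2 * l.length : ℕ) : ℕ∞) ≤ Set.encard {q : ℚ × ℚ | q.2 ^ 2 = f.eval q.1} := by
  have hl : l.Nodup := List.Nodup.of_map _ hnd
  have hinj := List.inj_on_of_nodup_map hnd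
  have hneg : Function.Injective (fun e : ℚ × ℚ => (e.1, -e.2)) := by
    rintro ⟨a, b⟩ ⟨c, d⟩ h
    simpa using h
  have hl2 : (l ++ l.map (fun e : ℚ × ℚ => (e.1, -e.2))).Nodup := by
    rw [List.nodup_append]
    refine ⟨hl, hl.map hneg, ?_⟩
    intro a ha b hb hab
    rw [List.mem_map] at hb
    obtain ⟨c, hc, rfl⟩ := hb
    have h1 : a.1 = c.1 := by rw [hab]
    have h2 : a = c := hinj ha hc h1
    have h3 : a.2 = -c.2 := by rw [hab]
    rw [h2] at h3
    exact hne c hc (by linarith)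
  have hcard : (l ++ l.map (fun e : ℚ × ℚ => (e.1, -e.2))).toFinset.card = 2 * l.length := by
    rw [List.toFinset_card_of_nodup hl2, List.length_append, List.length_map]; ring
  rw [← hcard, ← Set.encard_coe_eq_coe_finsetCard]
  apply Set.encard_le_encard
  intro q hq
  simp only [Finset.mem_coe, List.mem_toFinset, List.mem_append, List.mem_map] at hq
  rcases hq with hq | ⟨c, hc, rfl⟩
  · exact hpt q hq
  · simpa using hpt c hc

/-- Reduction of a triple. -/
def red (p : ℕ) (e : ℤ × ℤ × ℤ) : ZMod p × ZMod p × ZMod p := (e.1, e.2.1, e.2.2)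

theorem count_triples (p : ℕ) [Fact p.Prime] (s t : ℤ) (l : List (ℤ × ℤ × ℤ))
    (hgood : ∀ e ∈ l, Good s t e) (r : List (ZMod p)) (hr : r.Nodup)
    (hred : List.Forall₂ (fun (e : ZMod p × ZMod p × ZMod p) (x : ZMod p) =>
      e.1 = x * e.2.1 ∧ e.2.1 ≠ 0 ∧ e.2.2 ≠ 0) (l.map (red p)) r) :
    ((2 * l.length : ℕ) : ℕ∞) ≤
      Set.encard {q : ℚ × ℚ | q.2 ^ 2 = (fp (s : ℚ) (t : ℚ)).eval q.1} := by
  have hr' : l.map (fun e => ((e.1 : ZMod p) / (e.2.1 : ZMod p))) = r := by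
    rw [List.forall₂_map_left_iff] at hred
    have : List.Forall₂ (fun (x y : ZMod p) => x = y)
        (l.map (fun e => ((e.1 : ZMod p) / (e.2.1 : ZMod p)))) r := by
      rw [List.forall₂_map_left_iff]
      refine hred.imp ?_
      intro e x h
      exact (div_eq_iff (show (e.2.1 : ZMod p) ≠ 0 from h.2.1)).2 h.1
    exact List.forall₂_eq_eq_eq ▸ this
  have hmem : ∀ e ∈ l, (e.2.1 : ZMod p) ≠ 0 ∧ (e.2.2 : ZMod p) ≠ 0 := by
    intro e he
    have h2 : ∀ (a : List (ℤ × ℤ × ℤ)) (b : List (ZMod p)),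
        List.Forall₂ (fun (e : ℤ × ℤ × ℤ) (x : ZMod p) =>
          (red p e).1 = x * (red p e).2.1 ∧ (red p e).2.1 ≠ 0 ∧ (red p e).2.2 ≠ 0) a b →
        ∀ e ∈ a, (e.2.1 : ZMod p) ≠ 0 ∧ (e.2.2 : ZMod p) ≠ 0 := by
      intro a b hab
      induction hab with
      | nil => simp
      | cons h _ ih =>
        intro e he
        rcases List.mem_cons.1 he with rfl | he
        · exact h.2
        · exact ih e he
    exact h2 l r (by rwa [List.forall₂_map_left_iff] at hred) e he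
  have hb0 : ∀ e ∈ l, (e.2.1 : ℚ) ≠ 0 := by
    intro e he h0
    apply (hmem e he).1
    have : e.2.1 = 0 := by exact_mod_cast h0
    rw [this]; simp
  have hc0 : ∀ e ∈ l, (e.2.2 : ℚ) ≠ 0 := by
    intro e he h0
    apply (hmem e he).2
    have : e.2.2 = 0 := by exact_mod_cast h0
    rw [this]; simp
  have hndl : (l.map (fun e => ((e.1 : ZMod p) / (e.2.1 : ZMod p)))).Nodup := by rw [hr']; exact hr
  have hinj := List.inj_on_of_nodup_map hndl
  have := count_points (fp (s : ℚ) (t : ℚ))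
    (l.map (fun e => ((e.1 : ℚ) / e.2.1, (e.2.2 : ℚ) / (e.2.1 : ℚ) ^ 3))) ?_ ?_ ?_
  · simpa using this
  · rw [List.map_map]
    refine List.Nodup.map_on ?_ (List.Nodup.of_map _ hndl)
    intro e he e' he' h
    apply hinj he he'
    simp only [Function.comp] at h
    rw [div_eq_div_iff (hb0 e he) (hb0 e' he')] at h
    have h' : e.1 * e'.2.1 = e'.1 * e.2.1 := by exact_mod_cast h
    show (e.1 : ZMod p) / (e.2.1 : ZMod p) = (e'.1 : ZMod p) / (e'.2.1 : ZMod p)
    rw [div_eq_div_iff (hmem e he).1 (hmem e' he').1]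
    exact_mod_cast congrArg (Int.cast : ℤ → ZMod p) h'
  · intro q hq
    rw [List.mem_map] at hq
    obtain ⟨e, he, rfl⟩ := hq
    exact div_ne_zero (hc0 e he) (pow_ne_zero _ (hb0 e he))
  · intro q hq
    rw [List.mem_map] at hq
    obtain ⟨e, he, rfl⟩ := hq
    have hg := hgood e he
    have hb := hb0 e he
    unfold Good at hg
    have hg' : S ((e.2.1 : ℚ) + s * e.1) (-4 * (e.2.1 : ℚ) + t * e.1) (13 * (e.2.1 : ℚ)) =
        (e.2.2 : ℚ) ^ 2 := by
      have := congrArg (Int.castRingHom ℚ) hg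
      rw [S_map] at this
      simpa using this
    rw [fp_eval]
    have e1 : (e.2.1 : ℚ) + s * e.1 = e.2.1 * (1 + s * (e.1 / e.2.1)) := by field_simp
    have e2 : -4 * (e.2.1 : ℚ) + t * e.1 = e.2.1 * (-4 + t * (e.1 / e.2.1)) := by field_simp
    have e3 : 13 * (e.2.1 : ℚ) = e.2.1 * 13 := by ring
    rw [e1, e2, e3, S_hom] at hg'
    show ((e.2.2 : ℚ) / (e.2.1 : ℚ) ^ 3) ^ 2 = _
    rw [div_pow, ← hg']
    field_simp

end Pool.Agent.H19F
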