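import Pool.Agent.H19F.Sec

namespace Pool.Agent.H19F

variable {R : Type*} [CommRing R]

theorem L2_good (s t : R) : ∀ e ∈ L2 s t, Good s t e := by
  simp only [L2, List.forall_mem_cons, List.not_mem_nil, false_imp_iff, implies_true, and_true,
    Good, S]
  refine ⟨?_, ?_, ?_, ?_, ?_, ?_, ?_, ?_, ?_, ?_, ?_, ?_, ?_⟩ <;> ring

theorem L3_good (s t : R) : ∀ e ∈ L3 s t, Good s t e := by
  simp only [L3, List.forall_mem_cons, List.not_mem_nil, false_imp_iff, implies_true, and_true,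
    Good, S]
  refine ⟨?_, ?_, ?_, ?_, ?_, ?_, ?_, ?_, ?_, ?_, ?_, ?_, ?_⟩ <;> ring

end Pool.Agent.H19F
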