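import Pool.Agent.H19F.Sec

namespace Pool.Agent.H19F

variable {R : Type*} [CommRing R]

theorem C0_good (s t : R) : ∀ e ∈ C0 s t, Good s t e := by
  simp only [C0, List.forall_mem_cons, List.not_mem_nil, false_imp_iff, implies_true, and_true,
    Good, S]
  refine ⟨?_, ?_, ?_, ?_, ?_, ?_, ?_⟩ <;> ring

theorem C1_good (s t : R) : ∀ e ∈ C1 s t, Good s t e := by
  simp only [C1, List.forall_mem_cons, List.not_mem_nil, false_imp_iff, implies_true, and_true,
    Good, S]
  refine ⟨?_, ?_, ?_, ?_, ?_, ?_, ?_⟩ <;> ring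

end Pool.Agent.H19F
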