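import Pool.Agent.H19F.Sec

namespace Pool.Agent.H19F

variable {R : Type*} [CommRing R]

theorem Q0_good (s t : R) : ∀ e ∈ Q0 s t, Good s t e := by
  simp only [Q0, List.forall_mem_cons, List.not_mem_nil, false_imp_iff, implies_true, and_true,
    Good, S]
  ring

theorem K0_aux (s t V : R) (h : V ^ 2 = d0 s t) :
    Good s t (132, 4 * s - 5 * t + V, 1138313792 * s ^ 3 - 774130896 * s ^ 2 * t - 2244353496 * s * t ^ 2 - 494919040 * t ^ 3 + V * (-15311824 * s ^ 2 + 256457080 * s * t + 46851200 * t ^ 2)) := by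
  simp only [Good, S, d0] at *
  linear_combination ((-17831463853505280 * s ^ 4 - 22311064404338688 * s ^ 3 * t + 6188410167440688 * s ^ 2 * t ^ 2 + 8215206536745120 * s * t ^ 3 + 1388069773081200 * t ^ 4) * V ^ 0 + (1750466668860800 * s ^ 3 - 1381603632121152 * s ^ 2 * t - 1578078363893856 * s * t ^ 2 - 278926752179680 * t ^ 3) * V ^ 1 + (86052654363280 * s ^ 2 + 81768623035616 * s * t + 14096523464320 * t ^ 2) * V ^ 2 + (-203233477920 * s - 53572004640 * t) * V ^ 3 + (708624400) * V ^ 4) * h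

theorem K0_good (s t W e : R) (he : e ^ 2 = 1) (h : W ^ 2 = d0 s t) :
    Good s t (K0 s t W e) := by
  have h2 : (e * W) ^ 2 = d0 s t := by rw [mul_pow, he, one_mul, h]
  exact K0_aux s t (e * W) h2

theorem K1_aux (s t V : R) (h : V ^ 2 = d1 s t) :
    Good s t (264, 156 * s + 27 * t + V, 691284515328 * s ^ 3 + 531808567488 * s ^ 2 * t + 112934370384 * s * t ^ 2 + 5796877680 * t ^ 3 + V * (5410546944 * s ^ 2 + 3209413680 * s * t + 391314000 * t ^ 2)) := by
  simp only [Good, S, d1] at *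
  linear_combination ((18339474186972195840 * s ^ 4 + 24053879626749891072 * s ^ 3 * t + 9688557593876787648 * s ^ 2 * t ^ 2 + 1461171788751026880 * s * t ^ 3 + 63961395695564400 * t ^ 4) * V ^ 0 + (178345346348252160 * s ^ 3 + 201920387609647872 * s ^ 2 * t + 60788305707459264 * s * t ^ 2 + 5378830798635360 * t ^ 3) * V ^ 1 + (287327919616320 * s ^ 2 + 290563328556864 * s * t + 50813471575680 * t ^ 2) * V ^ 2 + (222791511360 * s + 50170607520 * t) * V ^ 3 + (708624400) * V ^ 4) * h

theorem K1_good (s t W e : R) (he : e ^ 2 = 1) (h : W ^ 2 = d1 s t) :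
    Good s t (K1 s t W e) := by
  have h2 : (e * W) ^ 2 = d1 s t := by rw [mul_pow, he, one_mul, h]
  exact K1_aux s t (e * W) h2

theorem P_good (s t : R) : Good s t (0, 1, 26620) := by
  simp only [Good, S]
  ring

end Pool.Agent.H19F
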