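import Mathlib

/-!
Two invariants of binary sextics and their behaviour under linear changes of variables.
-/

namespace Pool.Agent.H19F

open Finset

/-- The invariant of degree 2 of the binary sextic with coefficients `v 0, ..., v 6`. -/
def I2 {R : Type*} [CommRing R] (v : ℕ → R) : R :=
  -120 * v 0 * v 6 + 20 * v 1 * v 5 - 8 * v 2 * v 4 + 3 * v 3 ^ 2

/-- An invariant of degree 4 of the binary sextic with coefficients `v 0, ..., v 6`. -/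
def I4 {R : Type*} [CommRing R] (v : ℕ → R) : R :=
  405 * v 0 ^ 2 * v 6 ^ 2 - 135 * v 0 * v 1 * v 5 * v 6 - 126 * v 0 * v 2 * v 4 * v 6 +
    75 * v 0 * v 2 * v 5 ^ 2 + 81 * v 0 * v 3 ^ 2 * v 6 - 45 * v 0 * v 3 * v 4 * v 5 +
    12 * v 0 * v 4 ^ 3 + 75 * v 1 ^ 2 * v 4 * v 6 - 20 * v 1 ^ 2 * v 5 ^ 2 -
    45 * v 1 * v 2 * v 3 * v 6 + v 1 * v 2 * v 4 * v 5 + 9 * v 1 * v 3 ^ 2 * v 5 -
    3 * v 1 * v 3 * v 4 ^ 2 + 12 * v 2 ^ 3 * v 6 - 3 * v 2 ^ 2 * v 3 * v 5 + v 2 ^ 2 * v 4 ^ 2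

theorem I2_map {R T : Type*} [CommRing R] [CommRing T] (g : R →+* T) (v : ℕ → R) :
    g (I2 v) = I2 fun i => g (v i) := by
  simp only [I2, map_add, map_sub, map_neg, map_mul, map_pow, map_ofNat]

theorem I4_map {R T : Type*} [CommRing R] [CommRing T] (g : R →+* T) (v : ℕ → R) :
    g (I4 v) = I4 fun i => g (v i) := by
  simp only [I4, map_add, map_sub, map_mul, map_pow, map_ofNat]

theorem I2_congr {R : Type*} [CommRing R] {v w : ℕ → R} (h : ∀ i < 7, v i = w i) :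
    I2 v = I2 w := by
  simp only [I2, h 0 (by norm_num), h 1 (by norm_num), h 2 (by norm_num), h 3 (by norm_num),
    h 4 (by norm_num), h 5 (by norm_num), h 6 (by norm_num)]

theorem I4_congr {R : Type*} [CommRing R] {v w : ℕ → R} (h : ∀ i < 7, v i = w i) :
    I4 v = I4 w := by
  simp only [I4, h 0 (by norm_num), h 1 (by norm_num), h 2 (by norm_num), h 3 (by norm_num),
    h 4 (by norm_num), h 5 (by norm_num), h 6 (by norm_num)]

/-- The binary sextic with coefficients `v 0, ..., v 6`. -/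
def F (v : ℕ → ℂ) (x z : ℂ) : ℂ := ∑ i ∈ range 7, v i * x ^ i * z ^ (6 - i)

theorem F_eq (v : ℕ → ℂ) (x z : ℂ) : F v x z = v 0 * z ^ 6 + v 1 * x * z ^ 5 +
    v 2 * x ^ 2 * z ^ 4 + v 3 * x ^ 3 * z ^ 3 + v 4 * x ^ 4 * z ^ 2 + v 5 * x ^ 5 * z +
    v 6 * x ^ 6 := by
  simp [F, sum_range_succ]

/-- Translation. -/
def Tr (h : ℂ) (v : ℕ → ℂ) (i : ℕ) : ℂ := ∑ j ∈ range 7, v j * (Nat.choose j i : ℂ) * h ^ (j - i)

/-- Reversal. -/
def Rv (v : ℕ → ℂ) (i : ℕ) : ℂ := v (6 - i)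

/-- Scaling of both variables. -/
def Sc (a b : ℂ) (v : ℕ → ℂ) (i : ℕ) : ℂ := a ^ i * b ^ (6 - i) * v i

theorem Tr_vals (h : ℂ) (v : ℕ → ℂ) :
    Tr h v 0 = v 0 + v 1 * h + v 2 * h ^ 2 + v 3 * h ^ 3 + v 4 * h ^ 4 + v 5 * h ^ 5 + v 6 * h ^ 6 ∧
    Tr h v 1 = v 1 + 2 * v 2 * h + 3 * v 3 * h ^ 2 + 4 * v 4 * h ^ 3 + 5 * v 5 * h ^ 4 +
      6 * v 6 * h ^ 5 ∧
    Tr h v 2 = v 2 + 3 * v 3 * h + 6 * v 4 * h ^ 2 + 10 * v 5 * h ^ 3 + 15 * v 6 * h ^ 4 ∧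
    Tr h v 3 = v 3 + 4 * v 4 * h + 10 * v 5 * h ^ 2 + 20 * v 6 * h ^ 3 ∧
    Tr h v 4 = v 4 + 5 * v 5 * h + 15 * v 6 * h ^ 2 ∧
    Tr h v 5 = v 5 + 6 * v 6 * h ∧
    Tr h v 6 = v 6 := by
  refine ⟨?_, ?_, ?_, ?_, ?_, ?_, ?_⟩ <;>
    simp only [Tr, sum_range_succ, range_zero, sum_empty, Nat.choose] <;> push_cast <;> ring

theorem F_Tr (h : ℂ) (v : ℕ → ℂ) (x z : ℂ) : F (Tr h v) x z = F v (x + h * z) z := by
  obtain ⟨h0, h1, h2, h3, h4, h5, h6⟩ := Tr_vals h v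
  rw [F_eq, F_eq, h0, h1, h2, h3, h4, h5, h6]
  ring

theorem F_Rv (v : ℕ → ℂ) (x z : ℂ) : F (Rv v) x z = F v z x := by
  simp only [F_eq, Rv]
  norm_num
  ring

theorem F_Sc (a b : ℂ) (v : ℕ → ℂ) (x z : ℂ) : F (Sc a b v) x z = F v (a * x) (b * z) := by
  simp only [F_eq, Sc]
  norm_num
  ring

/-- `w` has the invariants of a transform of `v`. -/
def Rel (v w : ℕ → ℂ) : Prop := ∃ r : ℂ, r ≠ 0 ∧ I2 w = r ^ 2 * I2 v ∧ I4 w = r ^ 4 * I4 v

theorem Rel.trans {u v w : ℕ → ℂ} (h : Rel u v) (h' : Rel v w) : Rel u w := by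
  obtain ⟨r, hr, h1, h2⟩ := h
  obtain ⟨r', hr', h1', h2'⟩ := h'
  refine ⟨r' * r, mul_ne_zero hr' hr, ?_, ?_⟩
  · rw [h1', h1]; ring
  · rw [h2', h2]; ring

theorem Rel_Tr (h : ℂ) (v : ℕ → ℂ) : Rel v (Tr h v) := by
  obtain ⟨h0, h1, h2, h3, h4, h5, h6⟩ := Tr_vals h v
  refine ⟨1, one_ne_zero, ?_, ?_⟩
  · simp only [I2, h0, h1, h2, h3, h4, h5, h6]; ring
  · simp only [I4, h0, h1, h2, h3, h4, h5, h6]; ring

theorem Rel_Rv (v : ℕ → ℂ) : Rel v (Rv v) := by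
  refine ⟨1, one_ne_zero, ?_, ?_⟩
  · simp only [I2, Rv]; norm_num; ring
  · simp only [I4, Rv]; norm_num; ring

theorem Rel_Sc (a b : ℂ) (ha : a ≠ 0) (hb : b ≠ 0) (v : ℕ → ℂ) : Rel v (Sc a b v) := by
  refine ⟨a ^ 3 * b ^ 3, mul_ne_zero (pow_ne_zero _ ha) (pow_ne_zero _ hb), ?_, ?_⟩
  · simp only [I2, Sc]; norm_num; ring
  · simp only [I4, Sc]; norm_num; ring

theorem coeff_eq {v w : ℕ → ℂ} (h : ∀ x z, F v x z = F w x z) : ∀ i < 7, v i = w i := by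
  have key : (∑ i ∈ range 7, Polynomial.C (v i) * Polynomial.X ^ i) =
      ∑ i ∈ range 7, Polynomial.C (w i) * Polynomial.X ^ i := by
    apply Polynomial.funext
    intro x
    have := h x 1
    simpa [F, Polynomial.eval_finsetSum] using this
  intro i hi
  have h2 := congrArg (fun p => Polynomial.coeff p i) key
  simpa [Polynomial.finsetSum_coeff, Polynomial.coeff_C_mul, Polynomial.coeff_X_pow, hi] using h2

theorem rel_of_eq {v w : ℕ → ℂ} (a b c d e : ℂ) (hdet : a * d - b * c ≠ 0) (he : e ≠ 0)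
    (h : ∀ x z, e * F w x z = F v (a * x + b * z) (c * x + d * z)) : Rel v w := by
  -- it is enough to find `u` related to `v` with the same values as `e * w`
  have fin : ∀ u : ℕ → ℂ, Rel v u → (∀ x z, e * F w x z = F u x z) → Rel v w := by
    intro u hu huw
    have hc : ∀ i < 7, (fun i => e * w i) i = u i := by
      apply coeff_eq
      intro x z
      rw [← huw, F_eq, F_eq]; ring
    have r2 : I2 u = e ^ 2 * I2 w := by
      rw [← I2_congr hc]; simp only [I2]; ring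
    have r4 : I4 u = e ^ 4 * I4 w := by
      rw [← I4_congr hc]; simp only [I4]; ring
    refine hu.trans ⟨e⁻¹, inv_ne_zero he, ?_, ?_⟩
    · rw [r2]; field_simp
    · rw [r4]; field_simp
  by_cases hc : c = 0
  · have hd : d ≠ 0 := by rintro rfl; simp [hc] at hdet
    have ha : a ≠ 0 := by rintro rfl; simp [hc] at hdet
    refine fin (Sc a d (Tr (b / d) v)) ((Rel_Tr _ _).trans (Rel_Sc a d ha hd _)) ?_
    intro x z
    rw [h, F_Sc, F_Tr, hc]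
    congr 1
    · field_simp
    · ring
  · set β : ℂ := (b * c - a * d) / c with hβ
    have hβ0 : β ≠ 0 := by
      rw [hβ]; apply div_ne_zero _ hc
      intro h0; apply hdet; linear_combination -h0
    refine fin (Sc c β (Tr (d / β) (Rv (Tr (a / c) v))))
      ((((Rel_Tr _ _).trans (Rel_Rv _)).trans (Rel_Tr _ _)).trans (Rel_Sc c β hc hβ0 _)) ?_
    intro x z
    rw [h, F_Sc, F_Tr, F_Rv, F_Tr]
    have e1 : c * x + d / β * (β * z) = c * x + d * z := by field_simp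
    rw [e1]
    congr 1
    rw [hβ]; field_simp; ring

theorem Rel.ratio {v w : ℕ → ℂ} (h : Rel v w) : I4 w / I2 w ^ 2 = I4 v / I2 v ^ 2 := by
  obtain ⟨r, hr, h1, h2⟩ := h
  rw [h1, h2]
  by_cases h0 : I2 v = 0
  · simp [h0]
  · field_simp

end Pool.Agent.H19F
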