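import Pool.Agent.H19F.Sqf
import Pool.Agent.H19F.Inv
import Pool.Agent.H19F.Id0
import Pool.Agent.H19F.Id1
import Pool.Agent.H19F.Id2
import Pool.Agent.H19F.Id3
import Pool.Agent.H19F.Id4

/-!
The one parameter family.
-/

namespace Pool.Agent.H19F

open Polynomial

section
variable {R : Type*} [CommRing R]

/-- Base parameter. -/
def bn (k : R) : R := 2 + 691 * k

/-- Base parameter. -/
def bp (k : R) : R := bn k ^ 2 - 66 * bn k - 5

/-- Base parameter. -/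
def bq (k : R) : R := bn k ^ 2 + 5

/-- Base parameter. -/
def bw (k : R) : R := -33 * bn k ^ 2 - 10 * bn k + 165

/-- Base parameter. -/
def bs (k : R) : R := 169 * bq k ^ 2 - bp k ^ 2

/-- Base parameter. -/
def bt (k : R) : R := 4 * (bp k ^ 2 - 13 * bq k ^ 2)

theorem bw_sq (k : R) : bw k ^ 2 = 1094 * bq k ^ 2 - 5 * bp k ^ 2 := by
  simp only [bw, bq, bp]; ring

theorem hW0 (k : R) : (624 * bp k * bq k) ^ 2 = d0 (bs k) (bt k) := by
  simp only [d0, bs, bt]; ring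

theorem hW1 (k : R) : (624 * bq k * bw k) ^ 2 = d1 (bs k) (bt k) := by
  have h := bw_sq k
  simp only [d1, bs, bt]
  linear_combination (624 * bq k) ^ 2 * h

theorem bs_map {T : Type*} [CommRing T] (g : R →+* T) (k : R) : g (bs k) = bs (g k) := by
  simp only [bs, bp, bq, bn, map_add, map_sub, map_mul, map_pow, map_ofNat]

theorem bt_map {T : Type*} [CommRing T] (g : R →+* T) (k : R) : g (bt k) = bt (g k) := by
  simp only [bt, bp, bq, bn, map_add, map_sub, map_mul, map_pow, map_ofNat]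

theorem secs_good (s t W0 W1 : R) (h0 : W0 ^ 2 = d0 s t) (h1 : W1 ^ 2 = d1 s t) :
    ∀ e ∈ secs s t W0 W1, Good s t e := by
  intro e he
  simp only [secs, List.mem_append, List.mem_cons, List.not_mem_nil, or_false] at he
  rcases he with he | he | he | he | he | he | he | he | rfl | rfl | rfl | rfl | rfl
  · exact L0_good s t e he
  · exact L1_good s t e he
  · exact L2_good s t e he
  · exact L3_good s t e he
  · exact C0_good s t e he
  · exact C1_good s t e he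
  · exact C2_good s t e he
  · exact Q0_good s t e he
  · exact P_good s t
  · exact K0_good s t W0 1 (by ring) h0
  · exact K0_good s t W0 (-1) (by ring) h0
  · exact K1_good s t W1 1 (by ring) h1
  · exact K1_good s t W1 (-1) (by ring) h1

/-- The coefficients of `fp`. -/
def cv (s t : R) : ℕ → R
  | 0 => c0 s t
  | 1 => c1 s t
  | 2 => c2 s t
  | 3 => c3 s t
  | 4 => c4 s t
  | 5 => c5 s t
  | 6 => c6 s t
  | _ => 0

theorem cv_map {T : Type*} [CommRing T] (g : R →+* T) (s t : R) (i : ℕ) :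
    g (cv s t i) = cv (g s) (g t) i := by
  match i with
  | 0 => exact c0_map g s t
  | 1 => exact c1_map g s t
  | 2 => exact c2_map g s t
  | 3 => exact c3_map g s t
  | 4 => exact c4_map g s t
  | 5 => exact c5_map g s t
  | 6 => exact c6_map g s t
  | _ + 7 => exact map_zero g

theorem fp_coeff (s t : R) : ∀ i < 7, (fp s t).coeff i = cv s t i := by
  intro i hi
  rw [fp_eq]
  interval_cases i <;> simp [cv, coeff_X, coeff_C]

end

theorem secs_red (s t W0 W1 : ℤ) : (secs s t W0 W1).map (red 691) =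
    secs (s : ZMod 691) t W0 W1 := by
  simp [secs, L0, L1, L2, L3, C0, C1, C2, Q0, K0, K1, red]

theorem bn_cast (k : ℤ) : ((2 + 691 * k : ℤ) : ZMod 691) = 2 := by
  have : (691 : ZMod 691) = 0 := by decide +kernel
  push_cast; rw [this]; ring

theorem many (k : ℕ) : (fp (bs (k : ℚ)) (bt (k : ℚ))).natDegree = 6 ∧
    Squarefree (fp (bs (k : ℚ)) (bt (k : ℚ))) ∧
    (158 : ℕ∞) ≤ Set.encard {q : ℚ × ℚ | q.2 ^ 2 = (fp (bs (k : ℚ)) (bt (k : ℚ))).eval q.1} := by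
  have hz : ((k : ℤ) : ℚ) = (k : ℚ) := by push_cast; rfl
  have e1 : bs (k : ℚ) = ((bs (k : ℤ) : ℤ) : ℚ) := by
    have := bs_map (Int.castRingHom ℚ) (k : ℤ)
    simpa using this.symm
  have e2 : bt (k : ℚ) = ((bt (k : ℤ) : ℤ) : ℚ) := by
    have := bt_map (Int.castRingHom ℚ) (k : ℤ)
    simpa using this.symm
  have hn : ((bn (k : ℤ) : ℤ) : ZMod 691) = 2 := bn_cast k
  have hp : ((bp (k : ℤ) : ℤ) : ZMod 691) = 2 ^ 2 - 66 * 2 - 5 := by
    simp only [bp]; push_cast; rw [hn]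
  have hq : ((bq (k : ℤ) : ℤ) : ZMod 691) = 2 ^ 2 + 5 := by
    simp only [bq]; push_cast; rw [hn]
  have hw : ((bw (k : ℤ) : ℤ) : ZMod 691) = -33 * 2 ^ 2 - 10 * 2 + 165 := by
    simp only [bw]; push_cast; rw [hn]
  have hs : ((bs (k : ℤ) : ℤ) : ZMod 691) = 146 := by
    simp only [bs]; push_cast; rw [hp, hq]; decide +kernel
  have ht : ((bt (k : ℤ) : ℤ) : ZMod 691) = 208 := by
    simp only [bt]; push_cast; rw [hp, hq]; decide +kernel
  have h0 : ((624 * bp (k : ℤ) * bq (k : ℤ) : ℤ) : ZMod 691) = 43 := by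
    push_cast; rw [hp, hq]; decide +kernel
  have h1 : ((624 * bq (k : ℤ) * bw (k : ℤ) : ℤ) : ZMod 691) = 453 := by
    push_cast; rw [hw, hq]; decide +kernel
  obtain ⟨hd, hsq⟩ := sqf_main (bs (k : ℤ)) (bt (k : ℤ)) hs ht
  rw [e1, e2]
  refine ⟨hd, hsq, ?_⟩
  have := count_triples 691 (bs (k : ℤ)) (bt (k : ℤ))
    (secs (bs (k : ℤ)) (bt (k : ℤ)) (624 * bp (k : ℤ) * bq (k : ℤ)) (624 * bq (k : ℤ) * bw (k : ℤ)))
    (secs_good _ _ _ _ (hW0 _) (hW1 _)) rl rl_nodup ?_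
  · have hlen : (secs (bs (k : ℤ)) (bt (k : ℤ)) (624 * bp (k : ℤ) * bq (k : ℤ))
        (624 * bq (k : ℤ) * bw (k : ℤ))).length = 79 := rfl
    rw [hlen] at this
    exact_mod_cast this
  · rw [secs_red, hs, ht, h0, h1]; exact spec

/-- The absolute invariant of the `k`-th member. -/
def jv (k : ℕ) : ℚ :=
  I4 (cv (bs (k : ℚ)) (bt (k : ℚ))) / I2 (cv (bs (k : ℚ)) (bt (k : ℚ))) ^ 2

theorem nonprop : I2 (cv (bs (0 : ℤ)) (bt (0 : ℤ))) ≠ 0 ∧
    I4 (cv (bs (0 : ℤ)) (bt (0 : ℤ))) * I2 (cv (bs (1 : ℤ)) (bt (1 : ℤ))) ^ 2 ≠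
    I4 (cv (bs (1 : ℤ)) (bt (1 : ℤ))) * I2 (cv (bs (0 : ℤ)) (bt (0 : ℤ))) ^ 2 := by
  decide +kernel

theorem eval_I2 (k : ℚ) : (I2 (cv (bs (X : ℚ[X])) (bt X))).eval k = I2 (cv (bs k) (bt k)) := by
  rw [← coe_evalRingHom, I2_map]
  simp only [cv_map, bs_map, bt_map, coe_evalRingHom, eval_X]

theorem eval_I4 (k : ℚ) : (I4 (cv (bs (X : ℚ[X])) (bt X))).eval k = I4 (cv (bs k) (bt k)) := by
  rw [← coe_evalRingHom, I4_map]
  simp only [cv_map, bs_map, bt_map, coe_evalRingHom, eval_X]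

theorem cast_I2 (k : ℤ) : I2 (cv (bs (k : ℚ)) (bt (k : ℚ))) = (I2 (cv (bs k) (bt k)) : ℤ) := by
  have h : (Int.castRingHom ℚ) (I2 (cv (bs k) (bt k))) = I2 (cv (bs (k : ℚ)) (bt (k : ℚ))) := by
    rw [I2_map]; simp only [cv_map, bs_map, bt_map]; rfl
  exact h.symm

theorem cast_I4 (k : ℤ) : I4 (cv (bs (k : ℚ)) (bt (k : ℚ))) = (I4 (cv (bs k) (bt k)) : ℤ) := by
  have h : (Int.castRingHom ℚ) (I4 (cv (bs k) (bt k))) = I4 (cv (bs (k : ℚ)) (bt (k : ℚ))) := by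
    rw [I4_map]; simp only [cv_map, bs_map, bt_map]; rfl
  exact h.symm

theorem fiber_finite (c : ℚ) : (jv ⁻¹' {c}).Finite := by
  obtain ⟨hn0, hn1⟩ := nonprop
  have a0 : I2 (cv (bs (0 : ℚ)) (bt (0 : ℚ))) = (I2 (cv (bs (0 : ℤ)) (bt (0 : ℤ))) : ℤ) := by
    simpa using cast_I2 0
  have a1 : I2 (cv (bs (1 : ℚ)) (bt (1 : ℚ))) = (I2 (cv (bs (1 : ℤ)) (bt (1 : ℤ))) : ℤ) := by
    simpa using cast_I2 1
  have b0 : I4 (cv (bs (0 : ℚ)) (bt (0 : ℚ))) = (I4 (cv (bs (0 : ℤ)) (bt (0 : ℤ))) : ℤ) := by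
    simpa using cast_I4 0
  have b1 : I4 (cv (bs (1 : ℚ)) (bt (1 : ℚ))) = (I4 (cv (bs (1 : ℤ)) (bt (1 : ℤ))) : ℤ) := by
    simpa using cast_I4 1
  set P2 : ℚ[X] := I2 (cv (bs X) (bt X)) with hP2
  set P4 : ℚ[X] := I4 (cv (bs X) (bt X)) with hP4
  have h2 : P2 ≠ 0 := by
    intro h0
    have := eval_I2 0
    rw [← hP2, h0, eval_zero, a0] at this
    exact hn0 (by exact_mod_cast this.symm)
  have h4 : P4 - C c * P2 ^ 2 ≠ 0 := by
    intro h0
    have e0 := congrArg (eval 0) h0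
    have e1 := congrArg (eval 1) h0
    simp only [eval_sub, eval_mul, eval_C, eval_pow, eval_zero] at e0 e1
    rw [hP2, hP4, eval_I2, eval_I4, a0, b0] at e0
    rw [hP2, hP4, eval_I2, eval_I4, a1, b1] at e1
    apply hn1
    have : ((I4 (cv (bs (0 : ℤ)) (bt (0 : ℤ))) : ℤ) : ℚ) *
        ((I2 (cv (bs (1 : ℤ)) (bt (1 : ℤ))) : ℤ) : ℚ) ^ 2 =
        ((I4 (cv (bs (1 : ℤ)) (bt (1 : ℤ))) : ℤ) : ℚ) *
        ((I2 (cv (bs (0 : ℤ)) (bt (0 : ℤ))) : ℤ) : ℚ) ^ 2 := by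
      linear_combination ((I2 (cv (bs (1 : ℤ)) (bt (1 : ℤ))) : ℤ) : ℚ) ^ 2 * e0 -
        ((I2 (cv (bs (0 : ℤ)) (bt (0 : ℤ))) : ℤ) : ℚ) ^ 2 * e1
    exact_mod_cast this
  have hfin : ∀ Q : ℚ[X], Q ≠ 0 → {k : ℕ | Q.eval (k : ℚ) = 0}.Finite := by
    intro Q hQ
    exact (finite_setOfPred_isRoot hQ).preimage (f := fun k : ℕ => (k : ℚ))
      (fun a _ b _ h => by simpa using h)
  apply ((hfin P2 h2).union (hfin _ h4)).subset
  intro k hk
  simp only [Set.mem_preimage, Set.mem_singleton_iff, jv] at hk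
  simp only [Set.mem_union, Set.mem_ofPred_eq, eval_sub, eval_mul, eval_C, eval_pow]
  rw [hP2, hP4, eval_I2, eval_I4]
  by_cases h0 : I2 (cv (bs (k : ℚ)) (bt (k : ℚ))) = 0
  · exact Or.inl h0
  · right
    rw [div_eq_iff (pow_ne_zero _ h0)] at hk
    rw [hk]; ring

theorem range_infinite : (Set.range jv).Infinite := by
  intro hfin
  have := Set.Finite.preimage' hfin (fun b _ => fiber_finite b)
  rw [Set.preimage_range] at this
  exact Set.infinite_univ this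

end Pool.Agent.H19F
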