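import Pool.Agent.H19F.Count

/-!
Data modulo 691.
-/

namespace Pool.Agent.H19F

open Polynomial

/-- The `x`-coordinates modulo 691. -/
def rl : List (ZMod 691) :=
  [536, 284, 376, 539, 399, 445, 516, 328, 324, 196, 636, 637, 171, 388, 453, 678, 571, 81, 551, 290, 369, 21, 532, 94, 593, 412, 245, 522, 246, 426, 362, 92, 620, 172, 405, 97, 491, 600, 58, 49, 137, 682, 597, 582, 304, 45, 268, 295, 549, 120, 588, 29, 322, 567, 650, 91, 288, 471, 247, 139, 561, 484, 236, 202, 441, 274, 480, 475, 130, 211, 596, 302, 104, 219, 0, 428, 303, 385, 507]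

theorem rl_nodup : rl.Nodup := by decide +kernel

theorem spec : List.Forall₂ (fun (e : ZMod 691 × ZMod 691 × ZMod 691) (x : ZMod 691) =>
    e.1 = x * e.2.1 ∧ e.2.1 ≠ 0 ∧ e.2.2 ≠ 0) (secs (146 : ZMod 691) 208 43 453) rl := by
  decide +kernel

theorem cvals : c0 (146 : ZMod 691) 208 = (-246 : ℤ) ∧ c1 (146 : ZMod 691) 208 = (-139 : ℤ) ∧
    c2 (146 : ZMod 691) 208 = (154 : ℤ) ∧ c3 (146 : ZMod 691) 208 = (-37 : ℤ) ∧
    c4 (146 : ZMod 691) 208 = (246 : ℤ) ∧ c5 (146 : ZMod 691) 208 = (15 : ℤ) ∧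
    c6 (146 : ZMod 691) 208 = (-304 : ℤ) := by
  decide +kernel

/-- The sextic polynomial modulo 691, lifted to the integers. -/
noncomputable def G : ℤ[X] := -304 * X ^ 6 + 15 * X ^ 5 + 246 * X ^ 4 - 37 * X ^ 3 + 154 * X ^ 2 - 139 * X - 246

theorem G_derivative : derivative G = -1824 * X ^ 5 + 75 * X ^ 4 + 984 * X ^ 3 - 111 * X ^ 2 + 308 * X - 139 := by
  simp only [G, derivative_add, derivative_sub, derivative_neg, derivative_mul, derivative_X_pow,
    derivative_ofNat, derivative_X]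
  simp
  ring

theorem G_bezout : (-287 * X ^ 4 + 161 * X ^ 3 - 284 * X ^ 2 + 44 * X + 202) * G + (163 * X ^ 5 + 26 * X ^ 4 + 338 * X ^ 3 + 320 * X ^ 2 - 22 * X - 99) * derivative G =
    1 + 691 * (-304 * X ^ 10 - 128 * X ^ 9 - 631 * X ^ 8 - 750 * X ^ 7 + 381 * X ^ 6 + 768 * X ^ 5 + 128 * X ^ 4 - 64 * X ^ 3 + 79 * X ^ 2 - 96 * X - 52) := by
  rw [G_derivative, G]; ring

end Pool.Agent.H19F
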