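import Pool.Agent.H19F.Spec

/-!
Squarefreeness from a reduction modulo a prime.
-/

namespace Pool.Agent.H19F

open Polynomial

theorem separable_of_mod (p : ℕ) [Fact p.Prime] (f : ℤ[X]) (hf : f.natDegree = 6)
    (h6 : (f.map (Int.castRingHom (ZMod p))).natDegree = 6)
    (h5 : (derivative (f.map (Int.castRingHom (ZMod p)))).natDegree = 5)
    (hc : IsCoprime (f.map (Int.castRingHom (ZMod p)))
      (derivative (f.map (Int.castRingHom (ZMod p))))) :
    (f.map (Int.castRingHom ℚ)).natDegree = 6 ∧ Squarefree (f.map (Int.castRingHom ℚ)) := by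
  have hinj : Function.Injective (Int.castRingHom ℚ) := Int.cast_injective
  have hdeg : (f.map (Int.castRingHom ℚ)).natDegree = 6 := by
    rw [natDegree_map_eq_of_injective hinj, hf]
  refine ⟨hdeg, ?_⟩
  have hd5 : (derivative (f.map (Int.castRingHom ℚ))).natDegree = 5 := by
    rw [natDegree_derivative, hdeg]
  have h1 : resultant (f.map (Int.castRingHom (ZMod p)))
      (derivative (f.map (Int.castRingHom (ZMod p)))) ≠ 0 := by
    intro h0
    exact (resultant_eq_zero_iff.1 h0).2 hc
  rw [h6, h5, derivative_map, resultant_map_map] at h1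
  have h2 : resultant f (derivative f) 6 5 ≠ 0 := by
    intro h0; apply h1; rw [h0, map_zero]
  have h3 : resultant (f.map (Int.castRingHom ℚ)) (derivative (f.map (Int.castRingHom ℚ))) ≠ 0 := by
    rw [hdeg, hd5, derivative_map, resultant_map_map]
    intro h0; apply h2; exact hinj (by rw [h0, map_zero])
  have h4 : IsCoprime (f.map (Int.castRingHom ℚ)) (derivative (f.map (Int.castRingHom ℚ))) := by
    by_contra hn
    apply h3
    rw [resultant_eq_zero_iff]
    refine ⟨Or.inl ?_, hn⟩
    intro h0; rw [h0] at hdeg; simp at hdeg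
  exact (show (f.map (Int.castRingHom ℚ)).Separable from h4).squarefree

instance fact691 : Fact (Nat.Prime 691) := ⟨by norm_num⟩

theorem fp_map {R T : Type*} [CommRing R] [CommRing T] (g : R →+* T) (s t : R) :
    (fp s t).map g = fp (g s) (g t) := by
  rw [fp_eq, fp_eq]
  simp only [Polynomial.map_add, Polynomial.map_mul, Polynomial.map_pow, map_X, map_C,
    c0_map g, c1_map g, c2_map g, c3_map g, c4_map g, c5_map g, c6_map g]

theorem G_map : G.map (Int.castRingHom (ZMod 691)) = fp (146 : ZMod 691) 208 := by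
  obtain ⟨h0, h1, h2, h3, h4, h5, h6⟩ := cvals
  rw [fp_eq, h0, h1, h2, h3, h4, h5, h6, G]
  simp only [Polynomial.map_add, Polynomial.map_sub, Polynomial.map_neg, Polynomial.map_mul,
    Polynomial.map_pow, map_X, Polynomial.map_ofNat]
  push_cast
  simp only [map_neg, map_ofNat]
  ring

theorem G_coprime : IsCoprime (G.map (Int.castRingHom (ZMod 691)))
    (derivative (G.map (Int.castRingHom (ZMod 691)))) := by
  obtain ⟨U, V, W, h0⟩ : ∃ U V W : ℤ[X], U * G + V * derivative G = 1 + 691 * W :=
    ⟨_, _, _, G_bezout⟩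
  have h := congrArg (Polynomial.map (Int.castRingHom (ZMod 691))) h0
  simp only [Polynomial.map_add, Polynomial.map_mul, ← derivative_map, Polynomial.map_one,
    Polynomial.map_ofNat] at h
  have hp : (691 : (ZMod 691)[X]) = 0 := by
    have : ((691 : ℕ) : (ZMod 691)[X]) = 0 := by
      rw [← C_eq_natCast, ZMod.natCast_self, C_0]
    exact_mod_cast this
  rw [hp] at h
  exact ⟨_, _, by rw [h]; ring⟩

theorem sqf_main (s t : ℤ) (hs : (s : ZMod 691) = 146) (ht : (t : ZMod 691) = 208) :
    (fp (s : ℚ) (t : ℚ)).natDegree = 6 ∧ Squarefree (fp (s : ℚ) (t : ℚ)) := by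
  have hmap : (fp s t).map (Int.castRingHom (ZMod 691)) = G.map (Int.castRingHom (ZMod 691)) := by
    rw [G_map, fp_map]; simp [hs, ht]
  have hQ : (fp s t).map (Int.castRingHom ℚ) = fp (s : ℚ) (t : ℚ) := by
    rw [fp_map]; simp
  have h6' : (G.map (Int.castRingHom (ZMod 691))).natDegree = 6 := by
    rw [G_map, fp_eq]
    have : c6 (146 : ZMod 691) 208 ≠ 0 := by decide +kernel
    compute_degree!
  have h5' : (derivative (G.map (Int.castRingHom (ZMod 691)))).natDegree = 5 := by
    rw [G_map, fp_eq]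
    have h : c6 (146 : ZMod 691) 208 * 6 ≠ 0 := by decide +kernel
    have e : derivative (C (c6 (146 : ZMod 691) 208) * X ^ 6 + C (c5 (146 : ZMod 691) 208) * X ^ 5 +
        C (c4 (146 : ZMod 691) 208) * X ^ 4 + C (c3 (146 : ZMod 691) 208) * X ^ 3 +
        C (c2 (146 : ZMod 691) 208) * X ^ 2 + C (c1 (146 : ZMod 691) 208) * X +
        C (c0 (146 : ZMod 691) 208)) =
        C (c6 (146 : ZMod 691) 208 * 6) * X ^ 5 + C (c5 (146 : ZMod 691) 208 * 5) * X ^ 4 +
        C (c4 (146 : ZMod 691) 208 * 4) * X ^ 3 + C (c3 (146 : ZMod 691) 208 * 3) * X ^ 2 +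
        C (c2 (146 : ZMod 691) 208 * 2) * X + C (c1 (146 : ZMod 691) 208) := by
      simp only [derivative_add, derivative_C_mul_X_pow, derivative_C_mul_X, derivative_C]
      norm_num
    rw [e]
    compute_degree!
  have hf6 : (fp s t).natDegree = 6 := by
    apply le_antisymm
    · rw [fp_eq]; compute_degree
    · rw [← h6', ← hmap]; exact natDegree_map_le
  have := separable_of_mod 691 (fp s t) hf6 (by rw [hmap, h6']) (by rw [hmap, h5'])
    (by rw [hmap]; exact G_coprime)
  rwa [hQ] at this

end Pool.Agent.H19F
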